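import Mathlib
import Pool.Agent.N476.FR.G

/-!
# Multiple averages along the squares of `⌊n ^ c⌋`, exponents less than one

For different exponents `c i` in `(0, 1)`, arbitrary measure preserving maps `T i` of a probability
space (equal or different, commuting or not) and bounded functions `f i`, the averages of
`∏ i, f i (T i ^ (⌊n ^ c i⌋ ^ 2) x)` converge in `L²` to `∏ i, g i`, where `g i` is the limit in
`L²` of the averages of `f i (T i ^ (n ^ 2) x)`.

Proof. On most intervals on which the slower sequences are constant the fastest one takes many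
consecutive values `m`, each about equally often; the averages of `f (T ^ (m ^ 2) x)` over the
windows `M ≤ m < M + L` converge in `L²` for `L → ∞`, uniformly in `M` (`N476/FR/A.lean`: for
functions invariant under a power of `T` by periodicity, on the orthogonal complement by van der
Corput's inequality and the mean ergodic theorem). Induction over the number of functions.
-/

set_option autoImplicit false

open MeasureTheory Filter Topology

namespace Pool.Agent.N476.Variants.SublinearExponents

/-- For different `c i ∈ (0, 1)` and arbitrary measure preserving maps `T i` the averages of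
`∏ i, f i ((T i) ^ (⌊n ^ c i⌋ ^ 2) x)` converge in `L²` to the product of the limits `g i` of the
averages of `f i ((T i) ^ (n ^ 2) x)`. -/
theorem result :
    ∀ (k : ℕ) (c : Fin k → ℝ), Function.Injective c → (∀ i, 0 < c i ∧ c i < 1) →
      ∀ (X : Type) [MeasurableSpace X] (μ : Measure X) [IsProbabilityMeasure μ]
        (T : Fin k → X → X), (∀ i, MeasurePreserving (T i) μ μ) →
        ∀ f : Fin k → X → ℝ, (∀ i, Measurable (f i)) → (∀ i, ∃ C : ℝ, ∀ x, |f i x| ≤ C) →
          ∃ g : Fin k → X → ℝ, (∀ i, Measurable (g i)) ∧ (∀ i, ∃ C : ℝ, ∀ x, |g i x| ≤ C) ∧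
            (∀ i, Tendsto (fun N : ℕ => eLpNorm (fun x => (1 / (N : ℝ)) *
              ∑ n ∈ Finset.Icc 1 N, f i ((T i)^[n ^ 2] x) - g i x) 2 μ) atTop (𝓝 0)) ∧
            Tendsto (fun N : ℕ => eLpNorm (fun x => (1 / (N : ℝ)) *
              ∑ n ∈ Finset.Icc 1 N, ∏ i, f i ((T i)^[⌊(n : ℝ) ^ c i⌋₊ ^ 2] x) - ∏ i, g i x) 2 μ)
              atTop (𝓝 0) :=
  fun _ _ hc hc01 _ _ _ _ T hT f hf hb => Pool.Agent.N476.FR.main hc hc01 T hT f hf hb

end Pool.Agent.N476.Variants.SublinearExponents
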