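import Mathlib

/-!
# Exponential IP sets of type I are not partition regular for three or more cells

For every `r ≥ 3` there is a partition of `ℕ` into `r` cells none of which is an exponential IP set
of type I.
-/

set_option autoImplicit false

namespace Pool.Agent.N476.Variants.TypeOneThreeCells

/-- The sets `FE^I_n(X)` for `X = {x 0 < x 1 < x 2 < ⋯}`. -/
def FE (x : ℕ → ℕ) : ℕ → Set ℕ
  | 0 => {x 0}
  | n + 1 => {z | ∃ y ∈ FE x n, z = y ^ x (n + 1)} ∪ FE x n ∪ {x (n + 1)}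

/-- `C` is an exponential IP set of type I. -/
def IsExpIPI (C : Set ℕ) : Prop :=
  ∃ x : ℕ → ℕ, StrictMono x ∧ (⋃ n, FE x n) ⊆ C

/-- iterated logarithm: the number of times `Nat.log 2` can be applied before reaching `{0, 1}` -/
def lam (n : ℕ) : ℕ := if h : n < 2 then 0 else 1 + lam (Nat.log 2 n)
termination_by n
decreasing_by exact Nat.log_lt_self 2 (by omega)

theorem lam_lt {n : ℕ} (h : n < 2) : lam n = 0 := by
  rw [lam]; simp [h]

theorem lam_ge {n : ℕ} (h : 2 ≤ n) : lam n = 1 + lam (Nat.log 2 n) := by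
  rw [lam]; simp [Nat.not_lt.2 h]

theorem lam_mono : Monotone lam := by
  suffices H : ∀ n m : ℕ, m ≤ n → lam m ≤ lam n from fun m n h => H n m h
  intro n
  induction n using Nat.strong_induction_on with
  | _ n ih =>
    intro m hmn
    rcases Nat.lt_or_ge m 2 with hm | hm
    · rw [lam_lt hm]; exact Nat.zero_le _
    · have hn : 2 ≤ n := hm.trans hmn
      rw [lam_ge hm, lam_ge hn]
      have := ih (Nat.log 2 n) (Nat.log_lt_self 2 (by omega)) (Nat.log 2 m)
        (Nat.log_mono_right hmn)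
      omega

theorem lam_double {k : ℕ} (hk : 1 ≤ k) : lam (2 * k + 1) ≤ lam k + 1 := by
  rw [lam_ge (by omega)]
  have h1 : Nat.log 2 (2 * k + 1) = Nat.log 2 k + 1 := by
    rw [Nat.log_of_one_lt_of_le (by norm_num) (by omega)]
    congr 2
    omega
  have h2 : Nat.log 2 k + 1 ≤ k := Nat.log_lt_self 2 (by omega)
  have := lam_mono h2
  rw [h1]
  omega

theorem lam_sq {y : ℕ} (hy : 2 ≤ y) : lam (y ^ 2) ≤ lam y + 1 := by
  have h4 : 2 ≤ y ^ 2 := by nlinarith
  rw [lam_ge h4, lam_ge hy]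
  have hl : 1 ≤ Nat.log 2 y := Nat.log_pos (by norm_num) hy
  have h1 : Nat.log 2 (y ^ 2) ≤ 2 * Nat.log 2 y + 1 := by
    have h2 : y < 2 ^ (Nat.log 2 y + 1) := Nat.lt_pow_succ_log_self (by norm_num) y
    have h3 : y ^ 2 < 2 ^ (2 * Nat.log 2 y + 2) := by
      calc y ^ 2 < (2 ^ (Nat.log 2 y + 1)) ^ 2 := Nat.pow_lt_pow_left h2 (by norm_num)
        _ = 2 ^ (2 * Nat.log 2 y + 2) := by rw [← pow_mul]; ring_nf
    have := Nat.log_lt_of_lt_pow (by positivity) h3
    omega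
  have h5 := lam_mono h1
  have h6 := lam_double hl
  omega

/-- For `2 ≤ x < y` the iterated logarithms of `y` and `x ^ y` differ by `1` or `2`. -/
theorem lam_pow {x y : ℕ} (hx : 2 ≤ x) (hxy : x < y) :
    lam y + 1 ≤ lam (x ^ y) ∧ lam (x ^ y) ≤ lam y + 2 := by
  have hy : 2 ≤ y := hx.trans hxy.le
  have hbig : 2 ≤ x ^ y := hx.trans (Nat.le_self_pow (by omega) x)
  rw [lam_ge hbig]
  have h1 : y ≤ Nat.log 2 (x ^ y) := by
    apply Nat.le_log_of_pow_le (by norm_num)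
    exact Nat.pow_le_pow_left hx y
  have h2 : Nat.log 2 (x ^ y) ≤ y ^ 2 := by
    have h3 : x ^ y < 2 ^ (y ^ 2) := by
      calc x ^ y < (2 ^ x) ^ y := Nat.pow_lt_pow_left Nat.lt_two_pow_self (by omega)
        _ = 2 ^ (x * y) := by rw [← pow_mul]
        _ ≤ 2 ^ (y ^ 2) := Nat.pow_le_pow_right (by norm_num) (by nlinarith)
    exact (Nat.log_lt_of_lt_pow (by positivity) h3).le
  have h3 := lam_mono h1
  have h4 := lam_mono h2
  have h5 := lam_sq hy
  omega

theorem mem_FE (x : ℕ → ℕ) (n : ℕ) : x n ∈ FE x n := by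
  cases n with
  | zero => exact rfl
  | succ n => exact Or.inr rfl

/-- An exponential IP set of type I contains `y` and `x ^ y` for some `2 ≤ x < y`. -/
theorem exists_pair {C : Set ℕ} (hC : IsExpIPI C) :
    ∃ x y : ℕ, 2 ≤ x ∧ x < y ∧ y ∈ C ∧ x ^ y ∈ C := by
  obtain ⟨x, hx, hC⟩ := hC
  refine ⟨x 2, x 3, ?_, hx (by norm_num), ?_, ?_⟩
  · have h1 := hx (show (0 : ℕ) < 1 by norm_num)
    have h2 := hx (show (1 : ℕ) < 2 by norm_num)
    omega
  · exact hC (Set.mem_iUnion.2 ⟨3, mem_FE x 3⟩)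
  · refine hC (Set.mem_iUnion.2 ⟨3, Or.inl (Or.inl ⟨x 2, mem_FE x 2, rfl⟩)⟩)

/-- For every `r ≥ 3` there is a partition of `ℕ` into `r` nonempty cells such that no cell contains
`y` and `x ^ y` with `2 ≤ x < y`; in particular no cell is an exponential IP set of type I. -/
theorem result (r : ℕ) (hr : 3 ≤ r) :
    ∃ c : ℕ → Fin r, Function.Surjective c ∧
      (∀ x y : ℕ, 2 ≤ x → x < y → c y ≠ c (x ^ y)) ∧
      ∀ i : Fin r, ¬ IsExpIPI {n | c n = i} := by
  have hpow : ∀ k : ℕ, 1 ≤ k → lam (2 ^ k) = lam k + 1 := by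
    intro k hk
    rw [lam_ge (Nat.le_self_pow (by omega) 2), Nat.log_pow (by norm_num)]
    omega
  let c : ℕ → Fin r := fun n =>
    if h : n < r - 3 then ⟨3 + n, by omega⟩ else ⟨lam n % 3, by omega⟩
  have hc1 : ∀ n, n < r - 3 → (c n : ℕ) = 3 + n := by
    intro n hn
    simp only [c, dif_pos hn]
  have hc2 : ∀ n, r - 3 ≤ n → (c n : ℕ) = lam n % 3 := by
    intro n hn
    simp only [c, dif_neg (Nat.not_lt.2 hn)]
  have key : ∀ x y : ℕ, 2 ≤ x → x < y → c y ≠ c (x ^ y) := by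
    intro x y hx hxy h
    have hval : (c y : ℕ) = (c (x ^ y) : ℕ) := by rw [h]
    have hlt : y < x ^ y := Nat.lt_pow_self (by omega)
    have hl := lam_pow hx hxy
    rcases Nat.lt_or_ge y (r - 3) with h1 | h1
    · rw [hc1 y h1] at hval
      rcases Nat.lt_or_ge (x ^ y) (r - 3) with h2 | h2
      · rw [hc1 _ h2] at hval
        omega
      · rw [hc2 _ h2] at hval
        omega
    · rw [hc2 y h1, hc2 _ (h1.trans hlt.le)] at hval
      omega
  refine ⟨c, ?_, key, ?_⟩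
  · intro j
    rcases Nat.lt_or_ge (j : ℕ) 3 with hj | hj
    · -- three consecutive values of `lam`
      obtain ⟨m, hm, hm1⟩ : ∃ m : ℕ, r ≤ m ∧ 1 ≤ m := ⟨r, le_refl r, by omega⟩
      have e0 : (c m : ℕ) = lam m % 3 := hc2 m (by omega)
      have hm' : m < 2 ^ m := Nat.lt_two_pow_self
      have hm'' : 2 ^ m < 2 ^ 2 ^ m := Nat.lt_two_pow_self
      have e1 : (c (2 ^ m) : ℕ) = lam (2 ^ m) % 3 := hc2 _ (by omega)
      have e2 : (c (2 ^ 2 ^ m) : ℕ) = lam (2 ^ 2 ^ m) % 3 := hc2 _ (by omega)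
      rw [hpow m hm1] at e1
      rw [hpow (2 ^ m) (by omega), hpow m hm1] at e2
      have h3 : (j : ℕ) = lam m % 3 ∨ (j : ℕ) = (lam m + 1) % 3 ∨
          (j : ℕ) = (lam m + 1 + 1) % 3 := by omega
      rcases h3 with h3 | h3 | h3
      · exact ⟨m, Fin.ext (e0.trans h3.symm)⟩
      · exact ⟨2 ^ m, Fin.ext (e1.trans h3.symm)⟩
      · exact ⟨2 ^ 2 ^ m, Fin.ext (e2.trans h3.symm)⟩
    · have hj2 := j.2
      refine ⟨(j : ℕ) - 3, Fin.ext ?_⟩
      rw [hc1 _ (by omega)]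
      omega
  · intro i hi
    obtain ⟨x, y, hx, hxy, hy, hxy'⟩ := exists_pair hi
    exact key x y hx hxy (hy.trans hxy'.symm)

end Pool.Agent.N476.Variants.TypeOneThreeCells
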